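import Pool.Agent.Helper17.JB.Fin

set_option autoImplicit false

/-! # The growth of the Jordan blocks of the Frobenius

Let `k` be a finite field with `q` elements, `E` an algebraic closure of the `ℓ`-adic numbers. The
cohomology of the smooth projective varieties over `k` is a `SmoothTheory q E` (Künneth formula,
Poincaré duality, weights), the cohomology of the complete varieties is a `CompleteTheory` over it
(weight filtration, de Jong), see `Pool/Agent/Helper17/JB/Defs.lean`. `Q1` says that the Frobenius is
semisimple on `H^i(X)` for all complete `X` and all `i`. `HasBlock F c m`
(`Pool/Agent/Helper17/JB/Crit.lean`): the Jordan normal form of `F` has a block of size exactly `m` with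
the eigenvalue `c`. `HasMiddleBlock Y m`: this is so for `H^(2 e)(Y)` and `c = q ^ e`, `dim Y = 2 e`.

Theorem. Q1 is equivalent to the growth condition that the sizes of these blocks are
`o(dim Y + log (sum of the Betti numbers of Y))`.

Without any hypothesis the size of a block is at most the middle Betti number of `Y`; the theorem says
that a bound which is better than logarithmic in the Betti numbers and linear in the dimension implies
that all blocks are of size one. For the proof one needs large blocks, of size linear in `n`, on the
powers `(X × X)^(n + 1)`, whose dimension and whose logarithm of the Betti numbers are linear in `n`; they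
come from `Pool.Agent.Helper17.JB.all_odd` (tensor powers of a block of size exactly three in
`H^i(X) ⊗ H^(2 d - i)(X)`). -/

namespace Pool.Agent.Results.MP_b685ef_ag.GrowthOfBlocks

open Pool.Agent.Helper17.JB

/-- Q1 is equivalent to the growth condition. -/
theorem result {q : ℕ} (hq : q ≠ 0) {E : Type} [Field E] [CharZero E] [IsAlgClosed E]
    (A : SmoothTheory q E) (C : CompleteTheory A) :
    C.Q1 ↔ ∀ ε : ℝ, 0 < ε → ∃ K : ℝ, ∀ (Y : A.Var) (m : ℕ), A.HasMiddleBlock Y m →
      (m : ℝ) ≤ K + ε * (A.dim Y + Real.log (A.betti Y)) :=
  growth hq C

end Pool.Agent.Results.MP_b685ef_ag.GrowthOfBlocks
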