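import Pool.Agent.Helper17.JB.Fin

set_option autoImplicit false

/-! # Jordan blocks of the Frobenius: one odd size suffices

Let `k` be a finite field with `q` elements, `E` an algebraic closure of the `ℓ`-adic numbers. The
cohomology of the smooth projective varieties over `k` is a `SmoothTheory q E` (Künneth formula,
Poincaré duality, weights), the cohomology of the complete varieties is a `CompleteTheory` over it
(weight filtration, de Jong), see `Pool/Agent/Helper17/JB/Defs.lean`. `Q1` says that the Frobenius is
semisimple on `H^i(X)` for all complete `X` and all `i`. `HasBlock F c m`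
(`Pool/Agent/Helper17/JB/Crit.lean`): the Jordan normal form of `F` has a block of size exactly `m` with
the eigenvalue `c`. `HasMiddleBlock Y m`: this is so for `H^(2 e)(Y)` and `c = q ^ e`, `dim Y = 2 e`.

Theorem. For every odd number `m ≥ 3`, Q1 is equivalent to the statement that there is no Jordan block of
size exactly `m` with the eigenvalue `q ^ e` on `H^(2 e)(Y)`, `Y` smooth projective of dimension `2 e`.

So all these statements are equivalent to each other: if blocks of one odd size, for instance `3`, can be
excluded for the eigenvalue of the algebraic cycles, then all blocks of size `≥ 2` are excluded; if there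
is one nontrivial block at all, then there are blocks of all odd sizes.

Proof. If the Frobenius is not semisimple on `H^i(X)`, `X` smooth projective of dimension `d`, then on the
middle cohomology `H^(2 e)(Y)` of `Y = (X × X)^(n + 1)`, `e = (n + 1) d`, it has a Jordan block of size
exactly `2 n + 3` with the eigenvalue `q ^ e` (`all_odd`). A Jordan block of size exactly `m` is given by
a vector `v` and a functional `φ` with `(F - c)^m v = 0`, `φ (F - c)^m = 0`, `φ((F - c)^(m - 1) v) ≠ 0`
(`hasBlock_iff`). Such pairs multiply: sizes `a`, `b` give `a + b - 1` in the tensor product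
(`Crit.tensor`). The main point is the block of size exactly three in `H^i(X) ⊗ H^(2 d - i)(X)`: by
Poincaré duality `F ⊗ F - q^d` is `(N ⊗ 1 - 1 ⊗ N^*)(1 ⊗ F)`, `N = F - c` with the adjoint `N^*`, and for
a block of size `k = K + 2` with `v`, `φ` the vector `∑_{i + j = K} (i + 1)(j + 1) N^i v ⊗ (N^*)^j φ` and
the functional with the same coefficients give size three (`crit_three`): a lowering operator of `sl₂`,
although `N` is only known to be nilpotent on one generalized eigenspace. -/

namespace Pool.Agent.Results.MP_b685ef_ag.OneOddBlockSize

open Pool.Agent.Helper17.JB

/-- Q1 is equivalent to the nonexistence of middle Jordan blocks of size exactly `m`, for each odd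
`m ≥ 3`. -/
theorem result {q : ℕ} (hq : q ≠ 0) {E : Type} [Field E] [CharZero E] [IsAlgClosed E]
    (A : SmoothTheory q E) (C : CompleteTheory A) (m : ℕ) (hm : Odd m) (hm3 : 3 ≤ m) :
    C.Q1 ↔ ∀ Y : A.Var, ¬ A.HasMiddleBlock Y m :=
  one_odd hq C m hm hm3

end Pool.Agent.Results.MP_b685ef_ag.OneOddBlockSize
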