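import Pool.Agent.Helper82.TP.Fin

/-!
# Frobenius is semisimple if the Tate classes make up a fixed proportion of the order of the pole

Let `k` be a finite field with `q` elements, `E` an algebraic closure of the `ℓ`-adic numbers. The
cohomology of the smooth projective varieties over `k` is a `SmoothTheory q E` (Künneth formula,
Poincaré duality, weights), the cohomology of the complete varieties is a `CompleteTheory` over it
(weight filtration, de Jong), see `Pool/Agent/Helper17/JB/Defs.lean`. `Q1` says that the Frobenius is
semisimple on `H^i(X)` for all complete `X` and all `i`.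

For `Y` smooth projective of dimension `2 e` let `eigDim A Y e` be the dimension of the eigenspace of
the Frobenius on `H^(2 e)(Y)` for the eigenvalue `q ^ e` (the Tate classes), and `mult A Y e` the
multiplicity of this eigenvalue (the order of the pole of the zeta function of `Y` at `e`).

* Q1 holds if and only if `mult / eigDim` is `o(√ log betti)`. In particular it suffices that
  `eigDim ≥ δ mult` for all `Y` and one `δ > 0`.
* Zero-one law: for every smooth projective `X` either the Frobenius is semisimple on the cohomology of
  `X`, and then `eigDim = mult` for all the even powers of `X`; or `eigDim ≤ K mult / √m` for the powers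
  `X ^ (2 m)`.

Proof (`Pool/Agent/Helper82/TP/`). Let `F` be the Frobenius on `V = H^*(X)`, not semisimple, and let
`k_j(c)` be the dimension of the kernel of `(F - c) ^ j` on `V^(⊗ N)`. A block of size two with the
eigenvalue `a` in `V` and a flag in the quotient give the inequality
`k_j(c; N + 1) ≤ k_(j + 1)(c / a; N) + k_(j - 1)(c / a; N) + ∑ k_j(c / ν; N)`, sum over the other
`b - 2` eigenvalues `ν`, `b = dim V` (`kd_jd`, `flagJ`, `Kn_succ`). So `k_1(c; N)` is at most a sum over
the words of length `N` in the letters `a` (once) and `ν` with product `c`, and a word with `k` letters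
`a` counts at most as `p(k) = (k choose k / 2) ≤ 2 ^ k / √(k + 1)`: the number of walks of length `k`
from `1` which avoid `0`. With `2 ^ k` in place of `p(k)` one gets exactly the multiplicity of `c`. The
words with few letters `a` are exponentially rare; and the multiplicity of `q ^ e` on `V^(⊗ 2 m)` is at
least `b ^ (2 m) / (m + 1) ^ (b - 1)` by Poincaré duality and Cauchy's inequality.
-/

set_option autoImplicit false

namespace Pool.Agent.Results.MP_b685ef_ag.TateProportion

open Module Pool.Agent.Helper17.JB

/-- The dimension of the eigenspace of the Frobenius on `H^(2 e)(Y)` for `q ^ e`. -/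
noncomputable def eigDim {q : ℕ} {E : Type} [Field E] (A : SmoothTheory q E) (Y : A.Var) (e : ℕ) : ℕ :=
  finrank E ((A.F Y (2 * e)).eigenspace ((q : E) ^ e))

/-- The multiplicity of the eigenvalue `q ^ e` of the Frobenius on `H^(2 e)(Y)`: the dimension of the
generalized eigenspace. -/
noncomputable def mult {q : ℕ} {E : Type} [Field E] (A : SmoothTheory q E) (Y : A.Var) (e : ℕ) : ℕ :=
  finrank E ((A.F Y (2 * e)).maxGenEigenspace ((q : E) ^ e))

/-- (1) Q1 is equivalent to the growth condition `mult = o(√ log betti) * eigDim`. (2) The zero-one law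
for the even powers `X ^ (2 (n + 1)) = A.pow X (2 n + 1)` of a smooth projective variety `X`. -/
theorem result {q : ℕ} (hq : q ≠ 0) {E : Type} [Field E] [CharZero E] [IsAlgClosed E]
    (A : SmoothTheory q E) (C : CompleteTheory A) :
    (C.Q1 ↔ ∀ ε : ℝ, 0 < ε → ∃ K : ℝ, ∀ (Y : A.Var) (e : ℕ), A.dim Y = 2 * e →
      (mult A Y e : ℝ) ≤ (K + ε * √(Real.log (A.betti Y))) * eigDim A Y e) ∧
    ∀ X : A.Var,
      ((∀ i, (A.F X i).IsSemisimple) ∧ ∀ n : ℕ,
        eigDim A (A.pow X (2 * n + 1)) ((n + 1) * A.dim X) =
          mult A (A.pow X (2 * n + 1)) ((n + 1) * A.dim X)) ∨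
      ∃ K : ℝ, ∀ n : ℕ, 0 < mult A (A.pow X (2 * n + 1)) ((n + 1) * A.dim X) ∧
        (eigDim A (A.pow X (2 * n + 1)) ((n + 1) * A.dim X) : ℝ) ≤
          K / √(n + 1) * mult A (A.pow X (2 * n + 1)) ((n + 1) * A.dim X) :=
  ⟨Pool.Agent.Helper82.TP.crit hq C, fun X => Pool.Agent.Helper82.TP.zero_one hq X⟩

end Pool.Agent.Results.MP_b685ef_ag.TateProportion
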