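import Pool.Agent.Helper5.WS.Emb01
import Pool.Agent.Helper5.WS.Frob

/-!
# Semisimplicity of Frobenius and the cubic hypersurfaces of sets of triples

Let `k` be a finite field with `q` elements and `K = ℚ̄_ℓ`. For a scheme `X`, separated and of finite type
over `k`, `H i X` is the étale cohomology with compact support `H^i_c(X ⊗ k̄, ℚ̄_ℓ)`, with the action of the
(geometric) Frobenius automorphism `F`, considered as a module over the polynomial ring `K[F]`; if `X` is
complete this is the cohomology `H^i(X ⊗ k̄, ℚ̄_ℓ)`. So Frobenius acts semisimply on `H i X` if and only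
if the module `H i X` over `K[F]` is semisimple.

**Theorem.** The following are equivalent, for every finite field `k` and every prime `ℓ ≠ char k`:

1. Frobenius acts semisimply on the cohomology of all complete varieties over `k` (the question Q1);
2. Frobenius acts semisimply on the cohomology of all smooth complete varieties over `k`;
3. Frobenius acts semisimply on the cohomology with compact support of all varieties over `k`;
4. Frobenius acts semisimply on the cohomology with compact support of the (smooth, affine)
   hypersurfaces `T(x, y, z) = 1` for all trilinear forms `T` over `k`;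
5. Frobenius acts semisimply on the cohomology with compact support of the (smooth, affine)
   hypersurfaces `∑_{(h, i, j) ∈ E} x_h y_i z_j = 1` for all finite sets `E` of triples.

The library contains principles of this form for classes of varieties closed under all decompositions into
a closed and an open part (`Pool.Agent.Y116.UV`, `Pool.Agent.Z125.UN`); the objects of a *semisimple*
category are such a class for any property of direct summands. But the semisimple representations are not
closed under extensions, and the old principles do not apply to them. The new argument is a **separation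
of weights** (`Pool.Agent.Helper5.WS.embed_sys`): if an affine scheme is the open part
`x_0 y_0 ≠ 0` of a system of bilinear equations in `x`, `y` (times a torus), we add new variables `s_j`, `t_j`
and the bilinear equations `x_0 t_j = 0`, `s_j y_0 = 0`, `j < r`. The open part does not change, and the
closed part `x_0 y_0 = 0` becomes a union of two pieces which are products with `𝔸^r`; so its
cohomology has weights `≥ 2r`, larger than all weights of the open part if `r` is large. It follows that
`H^n_c` of the open part is contained in `H^n_c` of the whole system. The result is that **for every affine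
scheme `X` over `k` there are a set `E` of triples and a number `m` with `H^n_c(X)(-m) ⊆ H^{n+3+2m}_c(V_E)` for
all `n`** (`Pool.Agent.Helper5.WS.embed_trip`).
-/

set_option autoImplicit false

open CategoryTheory CategoryTheory.Limits AlgebraicGeometry Polynomial
open Pool.Agent.Y116.UV Pool.Agent.Z125.UN Pool.Agent.Helper5.WS

namespace Pool.Agent.Results.MP_b685ef_ag.TripleHypersurfaces

/-- The module `M` is a subquotient of the module `N`. -/
def IsSubquotient {A : Type} [Ring A] (M N : Type) [AddCommGroup M] [Module A M] [AddCommGroup N]
    [Module A N] : Prop :=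
  ∃ (P : Submodule A N) (f : P →ₗ[A] M), Function.Surjective f

/-- The known properties of the `ℓ`-adic cohomology `H i X` with compact support, `q` the number of
elements of `k`.
* `compact`: the properties listed in `IsCompactThy`, for the Tate twist `F ↦ q F` and for the weights
  of the eigenvalues of Frobenius (Deligne: the eigenvalues on `H^i_c(X)` are Weil numbers of weights
  between `0` and `i`);
* `alteration`: `H^i_c(X)` is a subquotient of a finite direct sum of spaces `H^j(Y)` for smooth complete
  varieties `Y` (de Jong's alterations, proper hypercoverings, and the decomposition by weights);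
* `torsor`: for every smooth variety `Y` there is an affine variety which is a torsor under a vector
  bundle of a rank `r` on `Y` (Jouanolou, Thomason), and `H^{i+2r}_c` of it is `H^i_c(Y)(-r)`. -/
structure IsFrobThy (k : Type) [Field k] (K : Type) [Field K]
    (H : ℤ → Sch k → ModuleCat.{0} K[X]) : Prop where
  compact : IsCompactThy (frobThy K (Nat.card k) H)
  alteration : ∀ X : Sch k, FT True X → ∀ i : ℤ, ∃ (n : ℕ) (Y : Fin n → Sch k) (j : Fin n → ℤ),
    (∀ s, IsProper (Y s).hom ∧ Smooth (Y s).hom) ∧
      IsSubquotient (A := K[X]) (H i X) (∀ s, H (j s) (Y s))
  torsor : ∀ Y : Sch k, FT True Y → Smooth Y.hom →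
    ∃ (A : Type) (_ : CommRing A) (_ : Algebra k A) (_ : Algebra.FiniteType k A) (r : ℕ),
      ∀ i : ℤ, Nonempty (H (i + 2 * r) (aff k A) ≅ (tw (tateTwist K (Nat.card k)) r).obj (H i Y))

/-- Frobenius acts semisimply on the cohomology with compact support of `X`, in all degrees. -/
def FrobSemisimple {k : Type} [Field k] {K : Type} [Field K] (H : ℤ → Sch k → ModuleCat.{0} K[X])
    (X : Sch k) : Prop :=
  ∀ i, IsSemisimpleModule K[X] (H i X)

lemma ft_proper {k : Type} [Field k] (X : Sch k) (h : IsProper X.hom) : FT True X where
  locallyOfFiniteType := inferInstance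
  quasiCompact := inferInstance
  separated _ := inferInstance

lemma ss_subquotient {A : Type} [Ring A] {M N : Type} [AddCommGroup M] [Module A M] [AddCommGroup N]
    [Module A N] (h : IsSubquotient (A := A) M N) (hN : IsSemisimpleModule A N) :
    IsSemisimpleModule A M := by
  obtain ⟨P, f, hf⟩ := h
  exact IsSemisimpleModule.of_surjective f hf

/-- **Theorem.** Let `k` be a finite field and `K = ℚ̄_ℓ`. The following are equivalent: Frobenius acts
semisimply on the cohomology of all complete varieties over `k`; of all smooth complete varieties over
`k`; on the cohomology with compact support of all varieties over `k`; of the hypersurfaces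
`T(x, y, z) = 1` for all trilinear forms `T` over `k`; of the hypersurfaces
`∑_{(h, i, j) ∈ E} x_h y_i z_j = 1` over `k` for all finite sets `E` of triples. -/
theorem result {k : Type} [Field k] [Finite k] {K : Type} [Field K] [IsAlgClosed K]
    [Nonempty (K →+* ℂ)] {H : ℤ → Sch k → ModuleCat.{0} K[X]} (hH : IsFrobThy k K H) :
    List.TFAE [∀ X : Sch k, IsProper X.hom → FrobSemisimple H X,
      ∀ X : Sch k, IsProper X.hom → Smooth X.hom → FrobSemisimple H X,
      ∀ X : Sch k, FT True X → FrobSemisimple H X,
      ∀ (a b c : ℕ) (T : Fin a → Fin b → Fin c → k), FrobSemisimple H (hypS T),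
      ∀ (a b c : ℕ) (E : Finset (Fin a × Fin b × Fin c)), FrobSemisimple H (tripS k E)] := by
  have hq : 1 < Nat.card k := Finite.one_lt_card
  have hq0 : ((Nat.card k : ℕ) : K) ≠ 0 := by
    obtain ⟨ι⟩ := ‹Nonempty (K →+* ℂ)›
    intro h
    have h1 := congrArg ι h
    rw [map_natCast, map_zero] at h1
    have h2 : Nat.card k = 0 := by exact_mod_cast h1
    omega
  have hW : IsWt (frobThy K (Nat.card k) H) := isWt_frob hq H
  tfae_have 1 → 2 := fun h X hX _ => h X hX
  tfae_have 2 → 3 := by
    intro h X hX i
    obtain ⟨n, Y, j, hY, hs⟩ := hH.alteration X hX i
    have : ∀ s, IsSemisimpleModule K[X] (H (j s) (Y s)) :=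
      fun s => h (Y s) (hY s).1 (hY s).2 (j s)
    exact ss_subquotient hs inferInstance
  tfae_have 3 → 1 := fun h X hX => h X (ft_proper X hX)
  tfae_have 3 → 4 := fun h a b c T => h _ (ft_aff True)
  tfae_have 4 → 5 := by
    classical
    intro h a b c E
    have h1 : hypS (fun i j l => if (i, j, l) ∈ E then (1 : k) else 0) = tripS k E := by
      unfold hypS tripS Trip
      rw [← tri_ind]
    rw [← h1]
    exact h a b c _
  tfae_have 5 → 2 := by
    intro h Y hY hs i
    obtain ⟨A, _, _, _, r, hr⟩ := hH.torsor Y (ft_proper Y hY) hs
    obtain ⟨e⟩ := hr i
    obtain ⟨p, hp⟩ := CharP.exists k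
    have hpp : Nat.Prime p := (CharP.char_is_prime_or_zero k p).resolve_right
      (CharP.char_ne_zero_of_finite k p)
    have : Fact p.Prime := ⟨hpp⟩
    let _ : Algebra (ZMod p) k := ZMod.algebra k p
    have hZ : Presents ({0, 1} : Set (ZMod p)) := presents_zero_one ZMod.intCast_surjective
    obtain ⟨a, b, m, E, hE⟩ := embed_trip hW hH.compact (F := ZMod p) hZ A
    obtain ⟨g, hg⟩ := hE (i + 2 * r)
    have h1 : IsSemisimpleModule K[X]
        ((tw (tateTwist K (Nat.card k)) m).obj (H (i + 2 * r) (aff k A))) :=
      ss_mono g hg (h _ _ _ E _)
    rw [ss_tw hq0] at h1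
    have h2 := ss_mono e.inv inferInstance h1
    rwa [ss_tw hq0] at h2
  tfae_finish

end Pool.Agent.Results.MP_b685ef_ag.TripleHypersurfaces
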